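import Mathlib
import Pool.Agent.Run7.h8.IC.SplitConc

/-!
# The Tate conjecture for products of powers of an abelian variety with a Frobenius element in CM
fields with isolated cycles, with other abelian varieties

Let `A` be an abelian variety over a finitely generated field `k` of any characteristic, of any
dimension and with arbitrary endomorphisms, which has good reduction at ONE place `v`, with a
residue field of `p ^ a` elements, such that the characteristic polynomial of the Frobenius
element at `v` is the product of the minimal polynomials of Weil numbers `π i` (`IsPolarised`) as
follows.

The Weil numbers. Let `π i` be Weil numbers for `q = p ^ a` (algebraic integers with `π i * conj
(π i) = q`) in CM fields `K i`, finitely many. For a CM subfield `T` of `K i` let `unitNorm` be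
the norm `N` of `π i` to `T`, normalised to absolute value one: `N ^ 2 / p ^ (a [K i : T])`. The
slopes of the `π i` are arbitrary. There are two assumptions.

* (`Separated`) Different embeddings of CM subfields `T i`, `T i'` of the fields (equal subfields
  if `i = i'`) never map positive powers of these numbers to the same complex number. For one
  Weil number `π` in `K` this is equivalent to `NormsGenerate`: for all CM subfields `T` of `K`,
  all positive powers of the normalised norm to `T` generate the field `T`. This condition is
  necessary: exotic classes (for instance of Weil type) come from norms some powers of which lie
  in smaller fields.
* (`Cyclic`) For every family of CM subfields `T i` of the `K i`, `i ∈ S ≠ ∅`, some automorphism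
  `τ` of `ℂ` has an *isolated cycle* on the complex embeddings of the `T i` (`IsolatedCycle`):
  for one embedding `ψ` the cycle of `ψ` under `τ` has `n > 1` elements, where `n` is any power
  of any prime number (or `n = 2 ^ a r ^ b`, `a > 0`, `r` an odd prime number, and the cycle is
  stable under complex conjugation), and `n` does not divide the length of any other cycle,
  except for that of the complex conjugate of `ψ`. By the theorem of Chebotarev this is a
  condition on the decomposition of prime numbers: some prime number, unramified in the `T i`,
  has exactly one prime ideal, or one pair of complex conjugate prime ideals, in the fields `T i`
  whose residue degree is divisible by `n`, and this residue degree is `n`. Alternatively the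
  family may have one of the properties of the starting files: some prime number divides one of
  the discriminants of the `T i`, but its third power does not divide their product; or some
  automorphism of `ℂ` moves at least one and at most four embeddings; and for norms with only two
  slopes `third power` and `four` may be replaced by `fourth power` and `six`.

An example (second part of the theorem, `HoldsForPrimePower`), in which the condition on the CM
subfields is not a hypothesis any more: `K` is **any** CM field of degree `2 r ^ k`, `r` a prime
number, such that some automorphism of `ℂ` acts on the pairs of complex conjugate embeddings of
`K` as one cycle (`OneOrbit`; for instance some prime number is inert in the maximal real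
subfield of `K`, or is totally ramified there and does not divide the degree). `K` may have many
CM subfields. Then the conclusion is true for every Weil number `π` in `K` with `NormsGenerate`,
and arbitrary slopes. So for abelian varieties of prime power dimension with such a Frobenius
element exotic classes can only be explained by norms to CM subfields. (For `k = 1`, prime
dimension, an automorphism as in `OneOrbit` always exists, and the result is similar to theorems
of Tankeev and Zarhin.)

Let `B` be an **arbitrary abelian variety** over `k`, and `M = H^b(B, ℚ_ℓ(j))`, or any other
representation of the Galois group `Γ` of `k`, such that the eigenvalues of the Frobenius element
on `M` are roots of a polynomial `f ≠ 0` with rational coefficients all of whose complex roots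
`α` are unrelated to the fields `K i` (`UnrelatedTo`): a function `n` on the complex embeddings
of `K i` with `n (conj φ) = - n φ` which is invariant under all automorphisms of `ℂ` that fix a
power of `α` is zero. This is so if some automorphism which fixes a power of `α` acts on `K i` as
the complex conjugation: for instance if `B` is supersingular at `v`, or the fields generated by
the Frobenius eigenvalues of `B` are linearly disjoint from the normal closures of the fields `K
i`.

The conclusion (`TateClassesSplit`). **The classes in `H^j(A ^ r) ⊗ M` which are fixed by an open
subgroup of `Γ` are zero for odd `j`, and linear combinations of products of `m` Tate classes of
degree two on `A ^ r` (that is, of divisor classes, by Tate, Zarhin and Faltings) and of Tate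
classes in `M(-m)` for `j = 2 m`.** The classes in `H^j(A ^ r) ⊗ M` are the alternating maps of
`j` variables from `V ^ r` to `M`. So for all these `A`, `B` and all `r` the Tate conjecture for
`A ^ r × B` (all codimensions, over all finite extensions) is equivalent to the Tate conjecture
for `B`; for `B = 0` it is the Tate conjecture for all powers of `A`. The hypotheses on `V`
(`IsPolarised`) are the Weil pairing and the semisimplicity (Tate, Zarhin, Faltings). That the
maximality of the angle rank implies this conclusion is a theorem of the starting files (Y1.TS).

The starting files (MP_021685_ag OneFrobenius, MP_0fca13_ag TateRingOfPowers) have the criterion
for families of CM subfields with the alternative properties in `Cyclic`, and with automorphisms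
which act on the pairs of conjugate embeddings as one cycle of odd *prime* length and *fix all
other embeddings*. New is that the length can be any prime power, including powers of two, or `2
^ a r ^ b`, and that the other embeddings can move, as long as the lengths of their cycles are
not divisible by `n`; so the second part of the theorem is new for all `k > 1`. The reduction to
the slopes and the descent to the CM subfields are those of the starting files
(`Pool.Agent.W527`).

The proof. A multiplicative relation between the conjugates of the `π i` gives an odd function
`c` on the embeddings of a family of CM subfields, as small as possible, such that `∑ c (z) w (g
z) = 0` for all automorphisms `g`, where `w` is the function given by the slopes of the norms. We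
apply this to `g τ ^ j`, multiply by `ζ ^ (-j)`, where `ζ` is a primitive `n`-th root of unity,
and sum over `j`. The cycles whose length is not divisible by `n` do not contribute. So for all
automorphisms `h`, `g` the product of `∑ c (h τ ^ i ψ) ζ ^ i` and of `∑ w (g τ ^ j ψ) ζ ^ (-j)`
is zero. If the first sum is zero for all `h`, then the irreducibility of the cyclotomic
polynomial gives `c (h ψ) = c (h τ ^ (n / r) ψ)` for all `h`, so that `c` comes from smaller CM
subfields, a contradiction. If not, then in the same way `w (g ψ) = w (g τ ^ (n / r) ψ)` for all
`g`, which contradicts `Separated`. So the angle rank is maximal: the only multiplicative
relations are those given by `π i * conj (π i) = q`.
-/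

set_option autoImplicit false

namespace Pool.Agent.Results.MP_7b53ad_ag.IsolatedCycles

open Run7.h8.IC Pool.Agent.Y1.TS

/-- **The Tate conjecture for `A ^ r × B` is equivalent to the Tate conjecture for `B`, for the
abelian varieties `A` over finitely generated fields with a Frobenius element in CM fields
with isolated cycles, and all unrelated abelian varieties `B`.** -/
theorem result :
    HoldsForCyclic (fun p _ a _ _ K _ _ _ π =>
      TateClassesSplit (p := p) a K π) ∧
    HoldsForPrimePower (fun p _ a _ _ K _ _ _ π =>
      TateClassesSplit (p := p) a K π) :=
  ⟨holdsForCyclic splitFor, primePower_of_cyclic (holdsForCyclic splitFor)⟩

end Pool.Agent.Results.MP_7b53ad_ag.IsolatedCycles
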