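import Mathlib
import Pool.Agent.H204R3.GP.Defs
import Pool.Agent.Run7.h237.AR.FrobLow

/-!
# Abelian varieties over finitely generated fields of any characteristic: no exotic Tate classes in
# small codimension, in terms of the rank of one Frobenius torus

(Theorem and proof by helper237, first handed in for the Tate conjecture over finitely generated
fields of characteristic zero, `MP_640417_ag`; stated here for abelian varieties over arbitrary
finitely generated fields.)

Let `A` be an abelian variety over a field `k` finitely generated over its prime field (of any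
characteristic), of any dimension and with arbitrary endomorphisms; spread `A` out over a model of
`k` of finite type over `ℤ` and consider ONE closed point of good reduction (of residue field with
`q = p ^ a` elements) such that the characteristic polynomial of the Frobenius element is the product
of the minimal polynomials of Weil numbers `π i` generating CM fields `F i` of degree `2 * g i`
(nothing is assumed about the Galois groups and the slopes; `dim A` is the sum of the `g i`). For a
set `J` of indices let `g_J` be the sum of the `g i`, `i ∈ J`, and `ρ_J` the rank of the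
multiplicative group generated by the conjugates of the numbers `π i ^ 2 / q`, `i ∈ J` (the angle
rank; `ρ_J + 1` is the rank of the Frobenius torus). The defect `g_J - ρ_J` is the number of
independent exceptional multiplicative relations between the eigenvalues of Frobenius.

Theorem: if `2 * r * (g_J - ρ_J) < g_J` for all nonempty `J`, there are no exotic Tate classes in
codimension at most `r` on all powers of `A`: they are linear combinations of wedge products of
Tate classes of degree two, that is, of classes of divisors (Tate, Zarhin, Mori, Faltings). So the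
Tate conjecture holds for all powers `A ^ n` in codimension at most `r`, and by the hard Lefschetz
theorem also in codimension at least `n dim A - r`. For a simple Frobenius element (one field) the
condition is `r < g / (2 (g - ρ))`.

The bound cannot be improved in general: for abelian varieties of Weil type and for the fourfolds of
Mumford the defect is one and there are exotic Tate classes in codimension `g / 2`.

In the Lean statement `V` is the rational Tate module with the action `ρ` of the Galois group, `ω`
is the Weil pairing of a polarization, `χ` is the cyclotomic character and `γ` the (arithmetic)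
Frobenius element at the closed point. Semisimplicity of `V` under open subgroups is the theorem of
Tate, Zarhin, Mori and Faltings.
-/

set_option autoImplicit false

namespace Pool.Agent.Results.MP_7b53ad_ag.RankDefectCodimension

open NumberField Module Pool.Agent.H204R3.GP Pool.Agent.H204R3.SP IntermediateField

/-- The angle rank: the rank of the multiplicative group generated by the complex numbers
`φ (π i) ^ 2 / q`, where `φ` runs through the complex embeddings of the fields `F i`. -/
noncomputable def angleRank {ι : Type*} {F : ι → Type*} [∀ i, Field (F i)] (q : ℝ)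
    (π : ∀ i, F i) : ℕ :=
  finrank ℤ (Submodule.span ℤ {u : Additive ℂˣ | ∃ (i : ι) (φ : F i →+* ℂ),
    ((u.toMul : ℂˣ) : ℂ) = φ (π i) ^ 2 / q})

/-- On all powers `A ^ n`, all Tate classes of codimension at most `r` are linear combinations of
wedge products of Tate classes of degree two: there are no exotic ones. -/
def NoExoticUpTo {k V Γ : Type*} [Field k] [AddCommGroup V] [Module k V] [Group Γ]
    (ρ : Representation k Γ V) (χ : Γ →* k) (r : ℕ) : Prop :=
  ∀ (n m : ℕ), m ≤ r → ∀ f : (Fin n → V) [⋀^Fin m × Fin 2]→ₗ[k] k, IsTateClass ρ χ m f →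
    f ∈ Submodule.span k {g : (Fin n → V) [⋀^Fin m × Fin 2]→ₗ[k] k |
      ∃ B : Fin m → (Fin n → V) [⋀^Fin 2]→ₗ[k] k, (∀ l, IsTateClass ρ χ 1 (B l)) ∧ IsWedge B g}

theorem result (ℓ p : ℕ) [Fact ℓ.Prime] [Fact p.Prime] (a : ℕ)
    {ι : Type} [Fintype ι] (F : ι → Type) [∀ i, Field (F i)] [∀ i, NumberField (F i)]
    [∀ i, IsCMField (F i)] (g : ι → ℕ) (hg : ∀ i, finrank ℚ (F i) = 2 * g i)
    (π : ∀ i, F i) (hgen : ∀ i, ℚ⟮π i⟯ = ⊤)
    (hweil : ∀ i, π i * IsCMField.complexConj (F i) (π i) = (p : F i) ^ a)
    (r : ℕ) (hr1 : 1 ≤ r) (hr : ∀ J : Finset ι, J.Nonempty →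
      2 * r * (∑ i ∈ J, g i - angleRank ((p : ℝ) ^ a) (fun i : J => π i)) < ∑ i ∈ J, g i)
    {V : Type} [AddCommGroup V] [Module ℚ_[ℓ] V] [FiniteDimensional ℚ_[ℓ] V]
    {Γ : Type} [Group Γ] (ρ : Representation ℚ_[ℓ] Γ V) (χ : Γ →* ℚ_[ℓ])
    (ω : V →ₗ[ℚ_[ℓ]] V →ₗ[ℚ_[ℓ]] ℚ_[ℓ]) (halt : ∀ v, ω v v = 0)
    (hnondeg : ∀ u, (∀ v, ω v u = 0) → u = 0)
    (hω : ∀ s u v, ω (ρ s u) (ρ s v) = χ s * ω u v)
    (hss : FiniteIndexSemisimple ρ)
    (γ : Γ) (hχ : χ γ = (p : ℚ_[ℓ]) ^ a)
    (hγ : (ρ γ).charpoly = ∏ i, (minpoly ℚ (π i)).map (algebraMap ℚ ℚ_[ℓ])) :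
    NoExoticUpTo ρ χ r := by
  have hg' : ∀ i, finrank ℚ (maximalRealSubfield (F i)) = g i := by
    intro i
    have h0 : finrank (maximalRealSubfield (F i)) (F i) = 2 :=
      Algebra.IsQuadraticExtension.finrank_eq_two _ _
    have h1 := finrank_mul_finrank ℚ (maximalRealSubfield (F i)) (F i)
    rw [h0, hg i] at h1
    omega
  intro n m hm f hf
  obtain ⟨Δ, hΔ, hf⟩ := hf
  have hss' : ∀ Δ : Subgroup Γ, Δ.FiniteIndex → SemiUnder (ρ '' (Δ : Set Γ)) := by
    intro Δ hΔ U hU
    obtain ⟨U', h1, h2⟩ := hss Δ hΔ U (fun s hs u hu => hU _ ⟨s, hs, rfl⟩ u hu)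
    refine ⟨U', ?_, h2⟩
    rintro _ ⟨s, hs, rfl⟩ u hu
    exact h1 s hs u hu
  have h1 := altG_of_tate_mem ρ χ (n := n) (m := m) (fun φ hφ =>
    Run7.h237.AR.tate_of_frobenius_low hgen hweil hr1 (by simp only [hg']; exact hr) ρ χ ω halt
      hnondeg hω hss' γ hχ hγ hm φ hφ) f Δ hΔ hf
  refine Submodule.span_mono ?_ h1
  rintro g ⟨B, hB, hg⟩
  refine ⟨B, fun l => ?_, hg⟩
  obtain ⟨Δ', hΔ', h2⟩ := hB l
  refine ⟨Δ', hΔ', fun s hs v => ?_⟩
  rw [pow_one]
  exact h2 s hs v

end Pool.Agent.Results.MP_7b53ad_ag.RankDefectCodimension
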