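import Mathlib
import Pool.Agent.Run7.h31.ES.RelSplit
import Pool.Agent.Run7.h31.ES.RelReal

/-!
# The Tate conjecture for products of powers of an abelian variety `A` with arbitrary varieties `U`:
the slopes of the factors of the characteristic polynomials of one Frobenius element

Let `A` be an abelian variety over a finitely generated field `k` of any characteristic, of any
dimension and with arbitrary endomorphisms, which has good reduction at ONE place `v`, with a residue
field of `p ^ a` elements, such that the characteristic polynomial of the Frobenius element at `v` is
the product of the minimal polynomials of the Weil numbers `π i` that generate CM fields `K i`
(`IsWeilFamily`, `IsPolarised`). Nothing is assumed about the degrees, the Galois groups, the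
subfields and the mutual position of the fields `K i`.

For a monic polynomial `g` over `K i` whose roots are Weil numbers of weight `m` let
`slope g (τ) = 2 ord_p (τ (g 0)) - m * deg g`, a function on the embeddings `τ` of `K i` in the
algebraic closure of `ℚ_p`; it is the sum of the numbers `2 ord_p (y) - m` over the roots `y` of
`τ g`. For the factor `X - π i` it is `dev (π i) = 2 ord_p (τ (π i)) - a`.

* (`SlopesIndependent`) For every `i` the function `dev (π i)` is not a rational linear combination of
  the slope functions of the other irreducible factors, over `K i`, of the characteristic polynomial
  of Frobenius (besides the factors `X - π i` and `X - conj (π i)`). This is a finite computation in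
  `K i`, it does not use the splitting field; and it is necessary: it is equivalent
  to the absence of relations between the Frobenius eigenvalues (the theorem of the page
  MP_6c781a_ag, ExactSlopeCriterion).

Let `U` be an **arbitrary** smooth projective variety over `k`, for instance an abelian variety, with
good reduction at `v`, and `M = H^b(U, ℚ_ℓ(j))`, or any representation of the Galois group `Γ`. The
eigenvalues of the Frobenius element on `M` are roots of a rational polynomial `f ≠ 0`. The condition
on `U` is (`NoInterference`), for all roots `α` of `f` (of weight `w`):

* For every `i` and every irreducible factor `g` over `K i` of the minimal polynomial of `α` the
  function `dev (π i)` is not a rational linear combination of the slope functions of the other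
  factors and of the slope function of `g`.

So the fields generated by the Frobenius eigenvalues of `U` are arbitrary; in particular they may be
contained in, equal to or contain the fields `K i`, and only the slopes matter. The earlier results
on `A × U` need that the eigenvalues of `U` are *unrelated* to the fields `K i` (`UnrelatedTo`: the
odd functions on the embeddings of `K i` which are invariant under the automorphisms that fix a
power of `α` vanish), which is never the case if `α` generates a field which contains `K i` and no
power of `α` lies in a smaller field.

The theorem (`ClassesSplitFromClear`): **the classes in `H^j(A ^ r) ⊗ M` which are fixed by an open
subgroup of `Γ` are zero for odd `j`, and linear combinations of products of `m` Tate classes of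
degree two on `A ^ r` (that is, of divisor classes, by Tate, Zarhin and Faltings) and of Tate classes
in `M(-m)` for `j = 2 m`.** So for all these `A`, `U` and all `r` the Tate conjecture for `A ^ r × U`
(all codimensions, over all finite extensions) is equivalent to the Tate conjecture for `U`; if `U` is
a point it is the Tate conjecture for all powers of `A`. The same is true
(`TateClassesSplit`) if the eigenvalues are unrelated to the fields `K i`; and
(third part) there is no interference if the irreducible factors over the fields `K i` of
the minimal polynomial of `α` have real constant coefficients: for instance if `α` is real, or if
the minimal polynomial of `α` is irreducible over the fields `K i`. Only the independence of the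
family `π` is needed for this.

The proof. Let a product of `T` values `φ (π i)` be equal to an eigenvalue `β`, up to a root of
unity, and let `n (i, φ)` be the multiplicity of the factor minus the one of the conjugate factor.
The `p`-adic valuations of the images under the Galois automorphisms `σ` of a common Galois extension
give `∑ n (i, φ) dev (σ φ) = 2 dev (σ β)`. If `n ≠ 0`, choose `(i, φ)` where `|n|` is maximal and take the mean over the
stabiliser `H` of `φ`, the Galois group over `φ (K i)`: the left hand side becomes a combination of
the slope functions of the factors over `K i` in which the factor `X - π i` has the coefficient
`2 |H| n (i, φ)` (the conjugate factor is counted there), and the right hand side is a multiple of the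
slope function of the factor `g` with the root `β`, since the norm of `β` is up to sign a power of
the constant coefficient of `g`. So `n = 0`. The passage from there to Tate classes for
representations was formalized in the starting files (`Y137/MV`, `Y1/TS`).
-/

set_option autoImplicit false

namespace Pool.Agent.Results.MP_7b53ad_ag.SlopesOfFactors

open NumberField Module Run7.h31.ES Pool.Agent.Y1.TS

/-- **The Tate conjecture for `A ^ r × U` is equivalent to the Tate conjecture for `U` if the slope
functions of the Frobenius eigenvalues of `A` are not combinations of those of the other factors and
one factor belonging to `U`.** -/
theorem result (p : ℕ) [Fact p.Prime] (a : ℕ) (I : Type) [Fintype I] (K : I → Type)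
    [∀ i, Field (K i)] [∀ i, NumberField (K i)] [∀ i, IsCMField (K i)] (π : ∀ i, K i)
    (hπ : IsWeilFamily p (fun _ => a) π) (hs : SlopesIndependent p (fun _ => a) π) :
    ClassesSplitFromClear (p := p) a K π ∧ TateClassesSplit (p := p) a K π ∧
      ∀ (w : ℕ) (α : ℂ), HasWeight p w α → RealFactors K α →
        NoInterference p (fun _ => a) π α :=
  ⟨classesSplit_of_clear hπ hs, split_of_slopes hπ hs,
    fun _ _ hα hr => noInterference_of_real hs hα hr⟩

end Pool.Agent.Results.MP_7b53ad_ag.SlopesOfFactors
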